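import Mathlib

namespace Pool.Agent.H.MP_469b0e_pr
open Finset

variable {V : Type*} (G : SimpleGraph V) [G.LocallyFinite]

open Classical in
/-- Dirichlet form on a finite window -/
noncomputable def En (W : Finset V) (g ψ : V → ℝ) : ℝ :=
  ∑ u ∈ W, ∑ w ∈ W, if G.Adj u w then (g u - g w) * (ψ u - ψ w) else 0

def Harm (ψ : V → ℝ) (x : V) : Prop := ∑ y ∈ G.neighborFinset x, (ψ x - ψ y) = 0

lemma En_zero (U W : Finset V) (hW : ∀ u ∈ U, ∀ w, G.Adj u w → w ∈ W)
    (g ψ : V → ℝ) (hg : ∀ v, v ∉ U → g v = 0) (hψ : ∀ u ∈ U, Harm G ψ u) : En G W g ψ = 0 := by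
  classical
  have h1 : ∑ u ∈ W, ∑ w ∈ W, (if G.Adj u w then g u * (ψ u - ψ w) else 0) = 0 := by
    apply Finset.sum_eq_zero
    intro u _
    by_cases hu : u ∈ U
    · have : ∑ w ∈ W, (if G.Adj u w then g u * (ψ u - ψ w) else 0)
          = g u * ∑ y ∈ G.neighborFinset u, (ψ u - ψ y) := by
        rw [← Finset.sum_filter, Finset.mul_sum]
        apply Finset.sum_congr _ (fun _ _ => rfl)
        ext w
        simp only [mem_filter, SimpleGraph.mem_neighborFinset]
        exact ⟨fun h => h.2, fun h => ⟨hW u hu w h, h⟩⟩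
      rw [this, hψ u hu, mul_zero]
    · simp [hg u hu]
  have h2 : ∑ u ∈ W, ∑ w ∈ W, (if G.Adj u w then g w * (ψ w - ψ u) else 0) = 0 := by
    rw [Finset.sum_comm]
    simpa only [G.adj_comm] using h1
  unfold En
  refine Eq.trans ?_ ((congrArg₂ (· + ·) h1 h2).trans (add_zero 0))
  rw [← Finset.sum_add_distrib]
  apply Finset.sum_congr rfl
  intro u _
  rw [← Finset.sum_add_distrib]
  apply Finset.sum_congr rfl
  intro w _
  split_ifs <;> ring

omit [G.LocallyFinite] in
lemma En_sub (W : Finset V) (g g' ψ : V → ℝ) :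
    En G W (fun v => g v - g' v) ψ = En G W g ψ - En G W g' ψ := by
  unfold En
  rw [← Finset.sum_sub_distrib]
  apply Finset.sum_congr rfl
  intro u _
  rw [← Finset.sum_sub_distrib]
  apply Finset.sum_congr rfl
  intro w _
  split_ifs <;> ring

omit [G.LocallyFinite] in
lemma En_window (W0 W : Finset V) (h : W0 ⊆ W) (g ψ : V → ℝ)
    (hg : ∀ u w, G.Adj u w → g u ≠ g w → u ∈ W0) : En G W g ψ = En G W0 g ψ := by
  classical
  unfold En
  symm
  rw [← Finset.sum_product', ← Finset.sum_product']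
  apply Finset.sum_subset (Finset.product_subset_product h h)
  rintro ⟨u, w⟩ _ h2
  simp only [mem_product, not_and] at h2
  split_ifs with ha
  · by_cases he : g u = g w
    · simp [he]
    · exact absurd (hg w u ha.symm (Ne.symm he)) (h2 (hg u w ha he))
  · rfl

lemma dirichlet (hd : ∀ x, 0 < G.degree x) (U : Finset V) (C : Set V) :
    ∃ ψ : V → ℝ, (∀ v, 0 ≤ ψ v ∧ ψ v ≤ 1) ∧ (∀ u ∈ U, Harm G ψ u) ∧
      (∀ v, v ∉ U → v ∈ C → ψ v = 1) ∧ (∀ v, v ∉ U → v ∉ C → ψ v = 0) := by
  classical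
  have hav : ∀ (φ : V → unitInterval) (x : V),
      (∑ y ∈ G.neighborFinset x, (φ y : ℝ)) / G.degree x ∈ unitInterval := by
    intro φ x
    have hx : (0 : ℝ) < G.degree x := by exact_mod_cast hd x
    refine ⟨div_nonneg (Finset.sum_nonneg fun y _ => (φ y).2.1) hx.le, ?_⟩
    rw [div_le_one hx]
    calc ∑ y ∈ G.neighborFinset x, (φ y : ℝ) ≤ ∑ _y ∈ G.neighborFinset x, (1 : ℝ) :=
          Finset.sum_le_sum fun y _ => (φ y).2.2
      _ = G.degree x := by simp
  let T : (V → unitInterval) →o (V → unitInterval) :=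
    ⟨fun φ x => if x ∈ U then ⟨_, hav φ x⟩ else if x ∈ C then 1 else 0, by
      intro φ φ' h x
      by_cases hx : x ∈ U
      · simp only [hx, if_true]
        have hx : (0 : ℝ) < G.degree x := by exact_mod_cast hd x
        change _ / _ ≤ _ / (_ : ℝ)
        gcongr with y _
        exact h y
      · simp [hx]⟩
  obtain ⟨φ, hfix⟩ : ∃ φ, T φ = φ := ⟨_, T.map_lfp⟩
  have h : ∀ v, ((T φ v : unitInterval) : ℝ) = φ v := fun v => by rw [hfix]
  refine ⟨fun v => (φ v : ℝ), fun v => (φ v).2, ?_, ?_, ?_⟩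
  · intro u hu
    have hx : (0 : ℝ) < G.degree u := by exact_mod_cast hd u
    have h' : (∑ y ∈ G.neighborFinset u, (φ y : ℝ)) / G.degree u = φ u := by
      rw [← h]; simp [T, hu]
    unfold Harm
    rw [Finset.sum_sub_distrib]
    simp only [← h']
    simp
    field_simp
    ring
  · intro v hv hc
    simp only
    rw [← h]; simp [T, hv, hc]
  · intro v hv hc
    simp only
    rw [← h]; simp [T, hv, hc]

omit [G.LocallyFinite] in
lemma lip_walk (φ : V → ℝ) (L : ℝ) (h : ∀ x y, G.Adj x y → |φ x - φ y| ≤ L) {x y : V}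
    (p : G.Walk x y) : |φ x - φ y| ≤ L * p.length := by
  induction p with
  | nil => simp
  | @cons a b c hab p ih =>
    have := abs_sub_le (φ a) (φ b) (φ c)
    have := h a b hab
    simp only [SimpleGraph.Walk.length_cons]
    push_cast
    linarith

open Classical in
lemma finite_stage (hG : G.Connected) (hd : ∀ x, 0 < G.degree x) (K : Finset V) (C : Set V)
    (hK : ∀ u w, G.Adj u w → u ∈ C → w ∉ C → w ∈ K) (hC : C.Infinite) (hD : Cᶜ.Infinite)
    (o : V) (U : Finset V) :
    ∃ φ : V → ℝ, φ o = 0 ∧ (∀ x y, G.Adj x y → |φ x - φ y| ≤ 1) ∧ (∀ u ∈ U, Harm G φ u) ∧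
      En G (K ∪ K.biUnion (G.neighborFinset ·)) (fun v => if v ∈ C then 1 else 0) φ = 1 := by
  obtain ⟨ψ, h01, hh, h1, h0⟩ := dirichlet G hd (U ∪ K) C
  set U' := U ∪ K with hU'
  set W0 := K ∪ K.biUnion (G.neighborFinset ·) with hW0
  set W := U' ∪ U'.biUnion (G.neighborFinset ·) with hW
  set χ : V → ℝ := fun v => if v ∈ C then 1 else 0 with hχ
  have hWn : ∀ u ∈ U', ∀ w, G.Adj u w → w ∈ W := fun u hu w h =>
    mem_union_right _ (mem_biUnion.2 ⟨u, hu, by simpa using h⟩)
  have hW0W : W0 ⊆ W := union_subset_union subset_union_right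
    (biUnion_subset_biUnion_of_subset_left _ subset_union_right)
  have hwin : En G W χ ψ = En G W0 χ ψ := by
    apply En_window G W0 W hW0W
    intro u w ha hne
    by_cases hu : u ∈ C <;> by_cases hw : w ∈ C
    · simp [hχ, hu, hw] at hne
    · exact mem_union_right _ (mem_biUnion.2 ⟨w, hK u w ha hu hw, by simpa using ha.symm⟩)
    · exact mem_union_left _ (hK w u ha.symm hw hu)
    · simp [hχ, hu, hw] at hne
  have grad : ∀ x y, G.Adj x y → ψ y < ψ x → ψ x - ψ y ≤ En G W0 χ ψ := by
    intro x y ha hlt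
    let s : V → ℝ := fun v => if ψ x ≤ ψ v then 1 else 0
    have hs : En G W (fun v => s v - χ v) ψ = 0 := by
      apply En_zero G U' W hWn _ _ _ hh
      intro v hv
      by_cases hc : v ∈ C
      · simp [s, hχ, hc, h1 v hv hc, (h01 x).2]
      · have := (h01 y).1
        have : ¬ ψ x ≤ 0 := by linarith
        simp [s, hχ, hc, h0 v hv hc, this]
    rw [En_sub, sub_eq_zero, hwin] at hs
    rw [← hs]
    have hxy : x ∈ W ∧ y ∈ W := by
      by_cases hx : x ∈ U'
      · exact ⟨mem_union_left _ hx, hWn x hx y ha⟩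
      by_cases hy : y ∈ U'
      · exact ⟨hWn y hy x ha.symm, mem_union_left _ hy⟩
      exfalso
      by_cases hxc : x ∈ C <;> by_cases hyc : y ∈ C
      · rw [h1 x hx hxc, h1 y hy hyc] at hlt; exact lt_irrefl _ hlt
      · exact hy (mem_union_right _ (hK x y ha hxc hyc))
      · exact hx (mem_union_right _ (hK y x ha.symm hyc hxc))
      · rw [h0 x hx hxc, h0 y hy hyc] at hlt; exact lt_irrefl _ hlt
    have hnn : ∀ u w, 0 ≤ (if G.Adj u w then (s u - s w) * (ψ u - ψ w) else 0) := by
      intro u w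
      split_ifs
      · by_cases a : ψ x ≤ ψ u <;> by_cases b : ψ x ≤ ψ w <;> simp [s, a, b] <;> linarith
      · rfl
    unfold En
    refine le_trans ?_ (Finset.single_le_sum (f := fun u => ∑ w ∈ W,
      if G.Adj u w then (s u - s w) * (ψ u - ψ w) else 0)
      (fun u _ => Finset.sum_nonneg fun w _ => hnn u w) hxy.1)
    refine le_trans ?_ (Finset.single_le_sum (f := fun w =>
      if G.Adj x w then (s x - s w) * (ψ x - ψ w) else 0) (fun w _ => hnn x w) hxy.2)
    simp [s, ha, not_le.2 hlt]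
  set J := En G W0 χ ψ with hJ
  have hJpos : 0 < J := by
    by_contra hJ0
    have hc : ∀ x y, G.Adj x y → |ψ x - ψ y| ≤ 0 := by
      intro x y ha
      rcases lt_trichotomy (ψ x) (ψ y) with h | h | h
      · have := grad y x ha.symm h; linarith
      · simp [h]
      · have := grad x y ha h; linarith
    obtain ⟨a, haC, haU⟩ := hC.exists_notMem_finset U'
    obtain ⟨b, hbC, hbU⟩ := hD.exists_notMem_finset U'
    obtain ⟨p⟩ := hG.preconnected a b
    have := lip_walk G ψ 0 hc p
    rw [h1 a haU haC, h0 b hbU hbC] at this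
    norm_num at this
  refine ⟨fun v => (ψ v - ψ o) / J, by simp, ?_, ?_, ?_⟩
  · intro x y ha
    have : (ψ x - ψ o) / J - (ψ y - ψ o) / J = (ψ x - ψ y) / J := by ring
    rw [this, abs_div, abs_of_pos hJpos, div_le_one hJpos, abs_le]
    rcases lt_trichotomy (ψ x) (ψ y) with h | h | h
    · have := grad y x ha.symm h; constructor <;> linarith
    · constructor <;> linarith
    · have := grad x y ha h; constructor <;> linarith
  · intro u hu
    have := hh u (mem_union_left _ hu)
    unfold Harm at this ⊢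
    have e : ∀ y, (ψ u - ψ o) / J - (ψ y - ψ o) / J = (ψ u - ψ y) / J := fun y => by ring
    simp only [e, ← Finset.sum_div, this, zero_div]
  · have : En G W0 χ (fun v => (ψ v - ψ o) / J) = En G W0 χ ψ / J := by
      unfold En
      rw [Finset.sum_div]
      apply Finset.sum_congr rfl
      intro u _
      rw [Finset.sum_div]
      apply Finset.sum_congr rfl
      intro w _
      split_ifs <;> ring
    rw [this, ← hJ, div_self hJpos.ne']

theorem main (hG : G.Connected) (K : Finset V) (C : Set V)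
    (hK : ∀ u w, G.Adj u w → u ∈ C → w ∉ C → w ∈ K) (hC : C.Infinite) (hD : Cᶜ.Infinite) :
    ∃ f : V → ℝ, (∀ x, f x = (∑ y ∈ G.neighborFinset x, f y) / G.degree x) ∧
      (∀ x y, |f x - f y| ≤ 1 * G.dist x y) ∧ ∃ x y, f x ≠ f y := by
  classical
  have : Infinite V := Set.infinite_univ_iff.1 (hC.mono (Set.subset_univ _))
  have hd : ∀ x, 0 < G.degree x := fun x => hG.preconnected.degree_pos_of_nontrivial x
  obtain ⟨o⟩ := hG.nonempty
  have hdist : ∀ (φ : V → ℝ), (∀ x y, G.Adj x y → |φ x - φ y| ≤ 1) →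
      ∀ x y, |φ x - φ y| ≤ 1 * G.dist x y := by
    intro φ h x y
    obtain ⟨p, hp⟩ := hG.exists_walk_length_eq_dist x y
    rw [← hp]; exact lip_walk G φ 1 h p
  let A : Finset V → Set (V → ℝ) := fun U => {φ | φ o = 0 ∧ (∀ x y, G.Adj x y → |φ x - φ y| ≤ 1) ∧
    (∀ u ∈ U, Harm G φ u) ∧
      En G (K ∪ K.biUnion (G.neighborFinset ·)) (fun v => if v ∈ C then 1 else 0) φ = 1}
  have hcl : ∀ U, IsClosed (A U) := by
    intro U
    simp only [A, Set.setOf_and, Set.setOf_forall]
    refine (isClosed_eq (by fun_prop) (by fun_prop)).inter (IsClosed.inter ?_ (IsClosed.inter ?_ ?_))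
    · exact isClosed_iInter fun x => isClosed_iInter fun y => isClosed_iInter fun _ =>
        isClosed_le (by fun_prop) (by fun_prop)
    · exact isClosed_iInter fun x => isClosed_iInter fun _ =>
        isClosed_eq (by fun_prop) (by fun_prop)
    · refine isClosed_eq ?_ (by fun_prop)
      unfold En
      refine continuous_finset_sum _ fun u _ => continuous_finset_sum _ fun w _ => ?_
      split_ifs <;> fun_prop
  have hcp : ∀ U, IsCompact (A U) := by
    intro U
    refine (isCompact_univ_pi (s := fun v => Set.Icc (-(G.dist v o : ℝ)) (G.dist v o))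
      fun _ => isCompact_Icc).of_isClosed_subset (hcl U) ?_
    intro φ hφ v _
    have := hdist φ hφ.2.1 v o
    rw [hφ.1, sub_zero, one_mul] at this
    exact abs_le.1 this
  obtain ⟨f, hf⟩ := IsCompact.nonempty_iInter_of_directed_nonempty_isCompact_isClosed A
    (fun U U' => ⟨U ∪ U',
      fun φ h => ⟨h.1, h.2.1, fun u hu => h.2.2.1 u (mem_union_left _ hu), h.2.2.2⟩,
      fun φ h => ⟨h.1, h.2.1, fun u hu => h.2.2.1 u (mem_union_right _ hu), h.2.2.2⟩⟩)
    (fun U => finite_stage G hG hd K C hK hC hD o U) hcp hcl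
  rw [Set.mem_iInter] at hf
  refine ⟨f, ?_, hdist f (hf ∅).2.1, ?_⟩
  · intro x
    have h := (hf {x}).2.2.1 x (by simp)
    have hx : (0 : ℝ) < G.degree x := by exact_mod_cast hd x
    unfold Harm at h
    rw [Finset.sum_sub_distrib] at h
    simp at h
    field_simp
    linarith
  · by_contra hc
    push Not at hc
    have h := (hf ∅).2.2.2
    unfold En at h
    simp [fun x => hc x o] at h

end Pool.Agent.H.MP_469b0e_pr
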